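import Pool.Agent.H91.RD.Basic

/-!
# MP_609556_an: module IGN (the core is ignited)
-/

open MeasureTheory Set Filter Topology Metric
open Pool.Agent.H29.TF (hk P)
open Pool.Agent.H91.RD

namespace Pool.Agent.H57.RD

theorem near_core {N : ℕ} {U : Set (E N)} {ρ : ℝ} (h : hausdorffEDist U (core U ρ) ≠ ⊤) :
    ∃ D, 0 ≤ D ∧ ∀ y ∈ U, ∃ p ∈ core U ρ, dist y p ≤ D := by
  refine ⟨(hausdorffEDist U (core U ρ)).toReal + 1, by positivity, fun y hy => ?_⟩
  have hlt : hausdorffEDist U (core U ρ) <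
      ENNReal.ofReal ((hausdorffEDist U (core U ρ)).toReal + 1) := by
    conv_lhs => rw [← ENNReal.ofReal_toReal h]
    rw [ENNReal.ofReal_lt_ofReal_iff (by positivity)]
    linarith
  obtain ⟨p, hp, hpd⟩ := exists_edist_lt_of_hausdorffEDist_lt hy hlt
  refine ⟨p, hp, ?_⟩
  rw [edist_dist] at hpd
  exact ((ENNReal.ofReal_lt_ofReal_iff (by positivity)).1 hpd).le

theorem ball_core {N : ℕ} {U : Set (E N)} {ρ : ℝ} (hρ : 0 < ρ) {p : E N} (hp : p ∈ core U ρ) :
    ball p ρ ⊆ U := by
  obtain ⟨hpU, hpf⟩ := hp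
  have hfar : ∀ z ∈ ball p ρ, z ∉ frontier U := by
    intro z hz hzf
    have h1 : infEDist p (frontier U) ≤ edist p z := infEDist_le_edist_of_mem hzf
    have h2 : ENNReal.ofReal ρ ≤ edist p z := hpf.trans h1
    rw [edist_dist, ENNReal.ofReal_le_ofReal_iff dist_nonneg] at h2
    rw [mem_ball, dist_comm] at hz
    linarith
  have hint : ∀ z ∈ ball p ρ, z ∈ closure U → z ∈ interior U := by
    intro z hz hzc
    by_contra hni
    exact hfar z hz ⟨hzc, hni⟩
  have hsub : ball p ρ ⊆ interior U := by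
    apply ((convex_ball p ρ).isPreconnected).subset_of_closure_inter_subset isOpen_interior
    · exact ⟨p, mem_ball_self hρ, hint p (mem_ball_self hρ) (subset_closure hpU)⟩
    · rintro z ⟨hz1, hz2⟩
      exact hint z hz2 (closure_mono interior_subset hz1)
  exact hsub.trans interior_subset

theorem ign (h1 : T_SOLM) (h2 : T_CMP) (h3 : T_TR) : T_IGN := by
  intro N f K ρ U u hf hρ hinv hH hS
  refine ⟨near_core hH, ?_⟩
  intro η hη R0 hR0
  obtain ⟨v, hv, hlim⟩ := hinv
  have hSv := h1 N f K (ball 0 ρ) v hf measurableSet_ball hv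
  have hunif := hlim R0 hR0
  rw [Metric.tendstoUniformlyOn_iff] at hunif
  obtain ⟨t1, ht1⟩ := eventually_atTop.1 (hunif η hη)
  refine ⟨max t1 1, lt_of_lt_of_le one_pos (le_max_right _ _), ?_⟩
  intro t ht p hp y hy
  have htpos : 0 < t := lt_of_lt_of_le one_pos ((le_max_right _ _).trans ht)
  have htt : t1 ≤ t := (le_max_left _ _).trans ht
  have hM : Mild f 0 (fun s x => lift0 U u (0 + s) (p + x)) := by
    have := h3 N f 0 0 p (lift0 U u) hS.mild
    rwa [sub_zero] at this
  have hcmp := h2 N f K K 0 0 t (lift0 (ball 0 ρ) v) (fun s x => lift0 U u (0 + s) (p + x)) hf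
    le_rfl htpos hSv.mild hM (by
      intro r _ z hz
      have := hf.lip (lift0 (ball 0 ρ) v r z) (lift0 U u (0 + r) (p + z))
      have h5 := le_abs_self (f (lift0 (ball 0 ρ) v r z) - f (lift0 U u (0 + r) (p + z)))
      have h6 : |lift0 (ball 0 ρ) v r z - lift0 U u (0 + r) (p + z)| =
        lift0 (ball 0 ρ) v r z - lift0 U u (0 + r) (p + z) := abs_of_pos (by linarith)
      rw [h6] at this
      linarith) (y - p)
  have hzero : (fun z : E N => max (lift0 (ball 0 ρ) v 0 z - lift0 U u (0 + 0) (p + z)) 0) =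
      fun _ => 0 := by
    funext z
    apply max_eq_right
    rw [add_zero, lift0_nonpos le_rfl, lift0_nonpos le_rfl, sub_nonpos]
    by_cases hz : z ∈ ball (0 : E N) ρ
    · rw [chi_mem hz, chi_mem]
      apply ball_core hρ hp
      rw [mem_ball, dist_eq_norm, add_sub_cancel_left]
      rwa [mem_ball_zero_iff] at hz
    · rw [chi_notMem hz]
      exact chi_nonneg _ _
  have hP : P (t - 0) (fun z : E N => max (lift0 (ball 0 ρ) v 0 z - lift0 U u (0 + 0) (p + z)) 0)
      (y - p) = 0 := by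
    rw [hzero, Pool.Agent.H29.TF.P_const (by linarith)]
  rw [hP, mul_zero, lift0_pos htpos] at hcmp
  simp only [zero_add, add_sub_cancel] at hcmp
  rw [lift0_pos htpos] at hcmp
  have hclose := ht1 t htt (y - p) (by
    rw [mem_closedBall_zero_iff]
    rw [mem_closedBall, dist_eq_norm] at hy
    exact hy)
  rw [Real.dist_eq] at hclose
  have := (abs_lt.1 hclose).2
  linarith

end Pool.Agent.H57.RD
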