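import Pool.Agent.H91.RD.Basic

/-!
# MP_609556_an: module LIMB (limits are monotone, class B)
-/

open MeasureTheory Set Filter Topology Metric
open Pool.Agent.H29.TF (hk P)
open Pool.Agent.H91.RD

namespace Pool.Agent.H57.RD

/-- limits at points well inside the invaded region are equal to one -/
theorem limb_inside (hSPR : T_SPR) {N : ℕ} {f : ℝ → ℝ} {K m ρ : ℝ} {U : Set (E N)}
    {u : ℝ → E N → ℝ} (hf : Lip f K) (hpos : ∀ s ∈ Ioo (0 : ℝ) 1, 0 < f s) (hm : 0 < m)
    (hlow : ∀ ε > 0, ∃ s1 > 0, ∀ s ∈ Icc 0 s1, (m - ε) * s ≤ f s) (hρ : 0 < ρ)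
    (hH : hausdorffEDist U (core U ρ) ≠ ⊤) (hne : U.Nonempty) (hS : SolM f U u)
    {tn : ℕ → ℝ} {xn : ℕ → E N} {w : ℝ → E N → ℝ} (htn : Tendsto tn atTop atTop)
    (hw : Ent f w) (hlim : LimAt u tn xn w) {κ : ℝ} (hκ : 0 < κ)
    (hfreq : ∃ᶠ n in atTop, infDist (xn n) U ≤ (2 * √m - κ) * tn n) :
    ∀ t x, w t x = 1 := by
  obtain ⟨φ, hφ, hφn⟩ := extraction_of_frequently_atTop hfreq
  have hlim2 := hlim.comp hφ
  have htn2 : Tendsto (tn ∘ φ) atTop atTop := htn.comp hφ.tendsto_atTop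
  have hs0 : 0 < √m := Real.sqrt_pos.2 hm
  have hs2 : √m * √m = m := Real.mul_self_sqrt hm.le
  set κ' := min κ (√m) with hκ'
  have hκ'0 : 0 < κ' := lt_min hκ hs0
  have hκ'1 : κ' ≤ κ := min_le_left _ _
  have hκ'2 : κ' ≤ √m := min_le_right _ _
  have hb0 : 0 < 2 * √m - κ' / 2 := by linarith
  intro t x
  have hge : ∀ η > 0, 1 - η ≤ w t x := by
    intro η hη
    obtain ⟨T, hT, hTt⟩ := hSPR N f K m (2 * √m - κ' / 2) ρ U u hf hpos hm hlow hb0
      (by nlinarith) hρ hne hH hS η hη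
    apply hlim2.le_of_eventually
    filter_upwards [htn2.eventually_ge_atTop (T - t), htn2.eventually_ge_atTop 0,
      htn2.eventually_ge_atTop ((‖x‖ - (2 * √m - κ' / 2) * t) / (κ' / 2))] with n h1 h2 h3
    apply hTt _ (by linarith)
    rw [div_le_iff₀ (by linarith)] at h3
    have h4 := hφn n
    have h5 : infDist ((xn ∘ φ) n + x) U ≤ infDist ((xn ∘ φ) n) U + ‖x‖ := by
      have := infDist_le_infDist_add_dist (s := U) (x := (xn ∘ φ) n + x) (y := (xn ∘ φ) n)
      rwa [dist_eq_norm, add_sub_cancel_left] at this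
    have h6 : (2 * √m - κ) * (tn ∘ φ) n ≤ (2 * √m - κ') * (tn ∘ φ) n :=
      mul_le_mul_of_nonneg_right (by linarith) h2
    have h7 : infDist ((xn ∘ φ) n) U ≤ (2 * √m - κ) * (tn ∘ φ) n := h4
    nlinarith
  apply le_antisymm (hw.2 t x).2
  apply le_of_forall_pos_le_add
  intro η hη
  linarith [hge η hη]

theorem limb (hEXT : T_EXT) (hSPR : T_SPR) (hCONE : T_CONE) (hE0 : T_E0) : T_LIMB := by
  intro N f K m ρ U u hN hf hpos hm hlow hup hρ hH hC hne hS tn xn htn
  obtain ⟨σ, w, hσ, hw, hlim⟩ := hEXT N f K U u hf hS tn xn htn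
  have htn1 : Tendsto (tn ∘ σ) atTop atTop := htn.comp hσ.tendsto_atTop
  have hs0 : 0 < √m := Real.sqrt_pos.2 hm
  have hs2 : √m * √m = m := Real.mul_self_sqrt hm.le
  by_cases hcase : ∃ κ > 0, ∃ᶠ n in atTop,
      infDist ((xn ∘ σ) n) U ≤ (2 * √m - κ) * (tn ∘ σ) n
  · obtain ⟨κ, hκ, hfreq⟩ := hcase
    have h1 := limb_inside hSPR hf hpos hm hlow hρ hH hne hS htn1 hw hlim hκ hfreq
    obtain ⟨e, he⟩ := exists_unit hN
    refine ⟨σ, w, e, hσ, hw, he, hlim, ?_⟩
    intro t x y _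
    rw [h1, h1]
  · push Not at hcase
    have hfar : ∀ κ > 0, ∀ᶠ n in atTop,
        (2 * √m - κ) * (tn ∘ σ) n < infDist ((xn ∘ σ) n) U := by
      intro κ hκ
      have := hcase κ hκ
      simpa [not_frequently, not_le] using this
    obtain ⟨e0, he0⟩ := exists_unit hN
    have hdir : ∀ n, ∃ e : E N, ‖e‖ = 1 ∧ (0 < infDist ((xn ∘ σ) n) U →
        ∃ ξ, Dir U ((xn ∘ σ) n) ξ e) := by
      intro n
      by_cases hn : 0 < infDist ((xn ∘ σ) n) U
      · obtain ⟨ξ, e, hd⟩ := hE0 N U _ hn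
        exact ⟨e, hd.unit, fun _ => ⟨ξ, hd⟩⟩
      · exact ⟨e0, he0, fun h => absurd h hn⟩
    choose en hen1 hen2 using hdir
    obtain ⟨e, he, φ, hφ, hlimE⟩ := (isCompact_sphere (0 : E N) 1).tendsto_subseq
      (x := en) (fun n => by rw [mem_sphere_zero_iff_norm]; exact hen1 n)
    rw [mem_sphere_zero_iff_norm] at he
    have hlim2 := hlim.comp hφ
    have htn2 : Tendsto ((tn ∘ σ) ∘ φ) atTop atTop := htn1.comp hφ.tendsto_atTop
    have hfar2 : ∀ κ > 0, ∀ᶠ n in atTop,
        (2 * √m - κ) * ((tn ∘ σ) ∘ φ) n < infDist (((xn ∘ σ) ∘ φ) n) U :=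
      fun κ hκ => hφ.tendsto_atTop.eventually (hfar κ hκ)
    -- monotonicity in the open half space
    have hmono : ∀ h : E N, 0 < inner ℝ h e → ∀ t x, w t (x + h) ≤ w t x := by
      intro h hh t x
      have hh0 : 0 < ‖h‖ := by
        rw [norm_pos_iff]
        rintro rfl
        rw [inner_zero_left] at hh
        exact lt_irrefl _ hh
      have hle : inner ℝ h e ≤ ‖h‖ := by
        have := real_inner_le_norm h e
        rwa [he, mul_one] at this
      set r := inner ℝ h e / ‖h‖ with hr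
      have hr0 : 0 < r := div_pos hh hh0
      have hr1 : r ≤ 1 := (div_le_one hh0).2 hle
      set s0 := √(1 - r ^ 2 / 2) with hs0def
      have hr2 : r ^ 2 ≤ 1 := by nlinarith
      have hs0sq : s0 ^ 2 = 1 - r ^ 2 / 2 := Real.sq_sqrt (by linarith)
      have hs0pos : 0 < s0 := Real.sqrt_pos.2 (by linarith)
      have hs01 : s0 < 1 := by
        have : 0 < r ^ 2 := by positivity
        nlinarith
      have hsq : √(1 - s0 ^ 2) < r := by
        rw [hs0sq, Real.sqrt_lt' hr0]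
        nlinarith
      have hsq2 : √(1 - s0 ^ 2) * ‖h‖ < inner ℝ h e := by
        have : r * ‖h‖ = inner ℝ h e := by rw [hr]; field_simp
        rw [← this]
        exact mul_lt_mul_of_pos_right hsq hh0
      set b := √m * (1 + s0) with hb
      have hb0 : 0 < b := by positivity
      have hb1 : b < 2 * √m := by nlinarith
      have hb2 : 4 * m * s0 ^ 2 < b ^ 2 := by
        have h1 : b ^ 2 = m * (1 + s0) ^ 2 := by rw [hb, mul_pow, sq (√m), hs2]
        have h2 : 4 * s0 ^ 2 < (1 + s0) ^ 2 := by nlinarith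
        rw [h1]
        nlinarith
      apply le_of_forall_pos_le_add
      intro δ hδ
      obtain ⟨T, hT, hTt⟩ := hCONE N f K m U u hf hm hup hC hS b s0 (‖x‖ + ‖h‖ + 1) δ hb0 hs0pos
        hs01 hb2 (by positivity) hδ
      have hinner : Tendsto (fun n => inner ℝ h ((en ∘ φ) n)) atTop (𝓝 (inner ℝ h e)) :=
        (tendsto_const_nhds).inner hlimE
      have hev : ∀ᶠ n in atTop, u (((tn ∘ σ) ∘ φ) n + t) (((xn ∘ σ) ∘ φ) n + (x + h)) ≤
          u (((tn ∘ σ) ∘ φ) n + t) (((xn ∘ σ) ∘ φ) n + x) + δ := by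
        have hκ : 0 < (2 * √m - b) / 2 := by linarith
        filter_upwards [htn2.eventually_ge_atTop (T - t), htn2.eventually_ge_atTop 0,
          hfar2 _ hκ, hfar2 _ hs0, hinner.eventually (lt_mem_nhds hsq2),
          htn2.eventually_ge_atTop (b * t / ((2 * √m - b) / 2))] with n h1 h2 h3 h4 h5 h6
        rw [div_le_iff₀ hκ] at h6
        have h7 : 0 < infDist (((xn ∘ σ) ∘ φ) n) U := by
          have : 0 ≤ (2 * √m - √m) * ((tn ∘ σ) ∘ φ) n := mul_nonneg (by linarith) h2
          linarith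
        obtain ⟨ξ, hd⟩ := hen2 (φ n) h7
        have := hTt _ (by linarith : T ≤ ((tn ∘ σ) ∘ φ) n + t) _ ξ _ hd (by
            have h8 : infDist ((xn ∘ σ) (φ n)) U = infDist (((xn ∘ σ) ∘ φ) n) U := rfl
            rw [h8]
            nlinarith)
          (((xn ∘ σ) ∘ φ) n + x) h (by
            have h8 : ((xn ∘ σ) ∘ φ) n + x - (xn ∘ σ) (φ n) = x := by
              show (xn ∘ σ) (φ n) + x - (xn ∘ σ) (φ n) = x
              abel
            rw [h8]
            linarith [norm_nonneg h])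
          (by linarith [norm_nonneg x]) h5.le
        rwa [add_assoc] at this
      exact le_of_tendsto_of_tendsto (hlim2.tendsto t (x + h))
        ((hlim2.tendsto t x).add_const δ) hev
    refine ⟨σ ∘ φ, w, e, hσ.comp hφ, hw, he, hlim2, ?_⟩
    intro t x y hy
    have hcont := hw.continuous_space t
    have htend : Tendsto (fun ε : ℝ => w t (x + (y - ε • e))) (𝓝[>] 0) (𝓝 (w t (x + y))) := by
      have h1 : Continuous fun ε : ℝ => w t (x + (y - ε • e)) := by
        exact hcont.comp (by fun_prop)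
      have h2 := h1.tendsto 0
      simp only [zero_smul, sub_zero] at h2
      exact h2.mono_left nhdsWithin_le_nhds
    apply ge_of_tendsto htend
    filter_upwards [self_mem_nhdsWithin] with ε hε
    have hε' : (0 : ℝ) < ε := hε
    have := hmono (-(y - ε • e)) (by
      rw [inner_neg_left, inner_sub_left, inner_smul_left, real_inner_self_eq_norm_sq, he]
      simp only [conj_trivial, one_pow, mul_one]
      linarith) t (x + (y - ε • e))
    rwa [add_neg_cancel_right] at this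

end Pool.Agent.H57.RD
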