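import Pool.Agent.H57.RD.IGN

/-!
# MP_609556_an: module SPR (spreading at every speed `b < 2√m`)
-/

open MeasureTheory Set Filter Topology Metric
open Pool.Agent.H29.TF (hk P)
open Pool.Agent.H91.RD

namespace Pool.Agent.H57.RD

theorem hk_low {N : ℕ} {x : E N} {A : ℝ} (hx : ‖x‖ ≤ A) :
    (4 * Real.pi * 1) ^ (-(Module.finrank ℝ (E N) : ℝ) / 2) * Real.exp (-A ^ 2 / (4 * 1)) ≤
      hk 1 x := by
  unfold Pool.Agent.H29.TF.hk
  apply mul_le_mul_of_nonneg_left _ (by positivity)
  apply Real.exp_le_exp.2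
  have h0 := norm_nonneg x
  have : ‖x‖ ^ 2 ≤ A ^ 2 := by nlinarith
  linarith

theorem P_chi_low (N : ℕ) {R ρ : ℝ} (hρ : 0 < ρ) : ∃ c0 > 0, ∀ U : Set (E N),
    MeasurableSet U → ∀ p : E N, ball p ρ ⊆ U → ∀ y ∈ closedBall p R, c0 ≤ P 1 (chi U) y := by
  set c1 : ℝ := (4 * Real.pi * 1) ^ (-(Module.finrank ℝ (E N) : ℝ) / 2) *
    Real.exp (-(R + ρ) ^ 2 / (4 * 1)) with hc1
  have hc1pos : 0 < c1 := by positivity
  refine ⟨c1 * (volume (ball (0 : E N) ρ)).toReal, ?_, ?_⟩
  · apply mul_pos hc1pos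
    apply ENNReal.toReal_pos
    · exact (measure_ball_pos volume (0 : E N) hρ).ne'
    · exact measure_ball_lt_top.ne
  · intro U hU p hp y hy
    have hvol : (volume (ball (0 : E N) ρ)).toReal = (volume (ball p ρ)).toReal := by
      rw [Measure.addHaar_ball_center volume p ρ]
    rw [hvol]
    have hi : ∫ z : E N, (ball p ρ).indicator (fun _ => c1) z =
        c1 * (volume (ball p ρ)).toReal := by
      rw [integral_indicator measurableSet_ball, setIntegral_const, smul_eq_mul, mul_comm]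
      rfl
    rw [← hi]
    unfold Pool.Agent.H29.TF.P
    apply integral_mono
    · rw [integrable_indicator_iff measurableSet_ball]
      exact integrableOn_const (measure_ball_lt_top.ne) (by simp)
    · apply Pool.Agent.H29.TF.integrable_hk_mul one_pos (C := 1)
      · exact (measurable_const.indicator hU).aestronglyMeasurable
      · intro z
        rw [abs_of_nonneg (chi_nonneg _ _)]
        exact chi_le_one _ _
    · intro z
      by_cases hz : z ∈ ball p ρ
      · simp only [indicator_of_mem hz]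
        rw [chi_mem (hp hz), mul_one]
        apply hk_low
        rw [mem_ball] at hz
        rw [mem_closedBall] at hy
        rw [← dist_eq_norm]
        have := dist_triangle_right y z p
        linarith
      · simp only [indicator_of_notMem hz]
        exact mul_nonneg (Pool.Agent.H29.TF.hk_nonneg zero_le_one _) (chi_nonneg _ _)

theorem low_time_one (h1 : T_SH) {N : ℕ} {f : ℝ → ℝ} {K : ℝ} {U : Set (E N)} {u : ℝ → E N → ℝ}
    (hf : Lip f K) (hS : SolM f U u) (y : E N) : Real.exp (-K) * P 1 (chi U) y ≤ u 1 y := by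
  have hK := hf.K0
  have hz0 : ∀ r ∈ Icc (0 : ℝ) 1, ∀ x, 0 ≤ lift0 U u r x ∧ lift0 U u r x ≤ 1 :=
    fun r hr x => hS.rng r hr.1 x
  have key := h1 N K (1 + K) 0 1 (lift0 U u) (fun r x => f (lift0 U u r x)) zero_lt_one
    hS.mild.meas
    (by
      intro r hr x
      rw [abs_of_nonneg (hz0 r hr x).1]
      linarith [(hz0 r hr x).2])
    (by
      intro r hr x
      have h2 := hf.abs_le (lift0 U u r x)
      rw [abs_of_nonneg (hz0 r hr x).1] at h2
      have h3 := (hz0 r hr x).2
      have h4 : K * lift0 U u r x ≤ K * 1 := mul_le_mul_of_nonneg_left h3 hK.le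
      linarith)
    (hS.mild.cont.mono (by
      intro q hq
      exact ⟨hq.1.1, hq.2⟩))
    (hf.continuous.comp_continuousOn (hS.mild.cont.mono (by
      intro q hq
      exact ⟨hq.1.1, hq.2⟩)))
    (fun r hr x => hS.mild.duh 0 r le_rfl hr.1 x) 1 ⟨zero_lt_one, le_rfl⟩ y
  rw [lift0_pos one_pos, lift0_nonpos le_rfl] at key
  rw [key]
  have hint : 0 ≤ ∫ q in (0 : ℝ)..1, Real.exp (-(K * (1 - q))) *
      P (1 - q) (fun y => f (lift0 U u q y) + K * lift0 U u q y) y := by
    apply intervalIntegral.integral_nonneg zero_le_one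
    intro q hq
    apply mul_nonneg (Real.exp_pos _).le
    apply Pool.Agent.H29.TF.P_nonneg (by linarith [hq.2])
    intro x
    have h2 := hf.abs_le (lift0 U u q x)
    rw [abs_of_nonneg (hz0 q hq x).1] at h2
    linarith [neg_abs_le (f (lift0 U u q x))]
  have h5 : Real.exp (-(K * (1 - 0))) * P (1 - 0) (chi U) y = Real.exp (-K) * P 1 (chi U) y := by
    rw [sub_zero, mul_one]
  linarith

theorem spr (hB : T_KBOX) (hO : T_ODEI) (hSH : T_SH) : T_SPR := by
  intro N f K m b ρ U u hf hpos hm hlow hb hb2 hρ hne hH hS η hη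
  by_cases hη1 : 1 ≤ η
  · refine ⟨1, one_pos, fun t ht x _ => ?_⟩
    have := hS.nonneg (lt_of_lt_of_le one_pos ht) x
    linarith
  push Not at hη1
  set s := √m with hs
  have hs2 : s * s = m := Real.mul_self_sqrt hm.le
  have hspos : 0 < s := Real.sqrt_pos.2 hm
  have hbs : b < 2 * s := by nlinarith
  set b' := (b + 2 * s) / 2 with hb'
  have hbb' : b < b' := by rw [hb']; linarith
  have hb's : b' < 2 * s := by rw [hb']; linarith
  have hb'0 : 0 < b' := by linarith
  have hb'2 : b' ^ 2 < 4 * m := by nlinarith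
  obtain ⟨R, hR, hK⟩ := hB N f K m b' hf hpos hm hlow hb'0 hb'2
  obtain ⟨c0, hc0, hlowP⟩ := P_chi_low N (R := R) hρ
  obtain ⟨δ', hδ', hK2⟩ := hK (Real.exp (-K) * c0) (by positivity)
  obtain ⟨L, S, hL, hSpos, hODE⟩ := hO N f K (min δ' (1 / 2)) η 1 hf
    (lt_min hδ' (by norm_num)) (lt_of_le_of_lt (min_le_right _ _) (by norm_num))
    (fun r hr1 hr2 => hpos r ⟨lt_of_lt_of_le (lt_min hδ' (by norm_num)) hr1, hr2⟩) hη hη1 one_pos
  obtain ⟨D, hD, hnear⟩ := near_core hH
  have hbb0 : 0 < b' - b := by linarith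
  refine ⟨max (S + 2) ((D + 1 + L + b' * (S + 1)) / (b' - b)),
    lt_of_lt_of_le (by linarith) (le_max_left _ _), ?_⟩
  intro t ht x hx
  have ht1 : S + 2 ≤ t := (le_max_left _ _).trans ht
  have ht2 : (D + 1 + L + b' * (S + 1)) / (b' - b) ≤ t := (le_max_right _ _).trans ht
  rw [div_le_iff₀ hbb0] at ht2
  obtain ⟨y, hyU, hyd⟩ := (infDist_lt_iff hne).1 (lt_of_le_of_lt hx (lt_add_one (b * t)))
  obtain ⟨p, hp, hyp⟩ := hnear y hyU
  have hball : ball p ρ ⊆ U := ball_core hρ hp
  have hlow1 : ∀ y ∈ closedBall p R, Real.exp (-K) * c0 ≤ u 1 y := by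
    intro y hy
    refine le_trans ?_ (low_time_one hSH hf hS y)
    exact mul_le_mul_of_nonneg_left (hlowP U hS.meas p hball y hy) (Real.exp_pos _).le
  have hz : ∀ z ∈ closedBall x L, δ' ≤ u (t - S) z := by
    intro z hz
    rw [mem_closedBall] at hz
    have h1 : dist p z ≤ b' * (t - S - 1) := by
      have h2 : dist p z ≤ dist p y + dist y x + dist x z := by
        have := dist_triangle4 p y x z
        linarith
      rw [dist_comm p y, dist_comm y x, dist_comm x z] at h2
      nlinarith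
    have := hK2 U u hS 1 one_pos p hlow1 (t - S - 1) (by linarith) z h1
    rwa [show (1 : ℝ) + (t - S - 1) = t - S by ring] at this
  have htS : 0 < t - S := by linarith
  have := hODE 0 (lift0 U u) hS.mild hS.rng (t - S) htS x (by
    intro z hz'
    rw [lift0_pos htS]
    exact (min_le_left _ _).trans (hz z hz')) x (mem_closedBall_self zero_le_one)
  rw [sub_add_cancel, lift0_pos (by linarith)] at this
  exact this

end Pool.Agent.H57.RD
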